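import Mathlib

/-!
Set-theoretic part: the well-order of type `ω₁`, bistationary sets, closure points.
-/

set_option autoImplicit false

namespace Pool.Agent.H897R2.Blum

open Set Cardinal Order

/-- Transfinite recursion in the form of an existence statement. -/
theorem exists_rec {W β : Type*} [LinearOrder W] [WellFoundedLT W] [Inhabited β]
    (G : (W → β) → W → β)
    (hG : ∀ x y w, (∀ v < w, x v = y v) → G x w = G y w) :
    ∃ s : W → β, ∀ w, s w = G s w := by
  classical
  let F : (w : W) → ((v : W) → v < w → β) → β :=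
    fun w ih => G (fun v => if h : v < w then ih v h else default) w
  let s : W → β := (wellFounded_lt (α := W)).fix F
  have hs : ∀ w, s w = F w (fun v _ => s v) := by
    intro w
    exact (wellFounded_lt (α := W)).fix_eq F w
  refine ⟨s, fun w => ?_⟩
  rw [hs w]
  apply hG
  intro v hv
  simp [hv]

/-- The well-ordered set of type `ω₁`. -/
abbrev W1 : Type := (ℵ₁ : Cardinal.{0}).ord.ToType

theorem cof_W1 : Order.cof W1 = ℵ₁ := by
  rw [Ordinal.cof_toType]
  exact (isRegular_aleph_one).cof_ord

theorem cof_W1_ne : Order.cof W1 ≠ ℵ₀ := by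
  rw [cof_W1]
  exact aleph0_lt_aleph_one.ne'

theorem countable_Iio_W1 (w : W1) : (Iio w).Countable := by
  rw [← le_aleph0_iff_set_countable]
  have h : #(Iio w) < succ ℵ₀ := by
    rw [succ_aleph0]
    exact mk_Iio_toType_ord_lt w
  exact Order.lt_succ_iff.1 h

theorem countable_Iic_W1 (w : W1) : (Iic w).Countable := by
  have : Iic w = insert w (Iio w) := by
    ext v; simp [le_iff_lt_or_eq, or_comm]
  rw [this]
  exact (countable_Iio_W1 w).insert w

theorem exists_upper (A : Set W1) (hA : A.Countable) : ∃ b, ∀ a ∈ A, a < b := by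
  by_contra hcon
  have hcof : IsCofinal A := by
    intro b
    by_contra h2
    apply hcon
    refine ⟨b, fun a ha => ?_⟩
    by_contra h3
    exact h2 ⟨a, ha, not_lt.1 h3⟩
  have h1 := Order.cof_le hcof
  rw [cof_W1] at h1
  have h2 : #A ≤ ℵ₀ := le_aleph0_iff_set_countable.2 hA
  exact absurd (h1.trans h2) (not_le.2 aleph0_lt_aleph_one)

theorem exists_gt_W1 (w : W1) : ∃ b, w < b := by
  obtain ⟨b, hb⟩ := exists_upper {w} (countable_singleton w)
  exact ⟨b, hb w rfl⟩

theorem exists_gt2_W1 (w v : W1) : ∃ b, w < b ∧ v < b := by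
  obtain ⟨b, hb⟩ := exists_upper {w, v} (by simp)
  exact ⟨b, hb w (by simp), hb v (by simp)⟩

instance : Nonempty W1 := by
  obtain ⟨b, -⟩ := exists_upper ∅ (by simp)
  exact ⟨b⟩

/-- There is a set which is stationary and whose complement is stationary. -/
theorem exists_bistationary : ∃ S : Set W1, IsStationary S ∧ IsStationary Sᶜ := by
  classical
  by_contra hcon
  push Not at hcon
  have hinj : Nonempty (W1 ↪ (ℕ → Bool)) := by
    rw [← Cardinal.le_def]
    simp only [mk_ord_toType, mk_pi, mk_fintype, Fintype.card_bool]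
    simp only [prod_const, mk_nat, lift_uzero, Nat.cast_ofNat]
    simpa using Cardinal.aleph_one_le_continuum
  obtain ⟨g⟩ := hinj
  have key : ∀ n : ℕ, ∃ C : Set W1, IsClub C ∧ ∃ c : Bool, ∀ w ∈ C, g w n = c := by
    intro n
    by_cases h : IsStationary {w | g w n = true}
    · have h2 := hcon _ h
      rw [not_isStationary_iff] at h2
      obtain ⟨C, hC, hd⟩ := h2
      refine ⟨C, hC, true, fun w hw => ?_⟩
      by_contra h3
      exact Set.disjoint_left.1 hd (show w ∈ {w | g w n = true}ᶜ from h3) hw
    · rw [not_isStationary_iff] at h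
      obtain ⟨C, hC, hd⟩ := h
      refine ⟨C, hC, false, fun w hw => ?_⟩
      by_contra h3
      have h4 : g w n = true := by simpa using h3
      exact Set.disjoint_left.1 hd h4 hw
  choose C hC c hc using key
  have hI : IsClub (⋂ n, C n) := IsClub.iInter_of_countable cof_W1_ne hC
  obtain ⟨w, hw, -⟩ := hI.isCofinal (Classical.arbitrary W1)
  obtain ⟨b, hb⟩ := exists_gt_W1 w
  obtain ⟨v, hv, hbv⟩ := hI.isCofinal b
  have hne : w ≠ v := (hb.trans_le hbv).ne
  apply hne
  apply g.injective
  funext n
  rw [hc n w (mem_iInter.1 hw n), hc n v (mem_iInter.1 hv n)]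

/-- Closure points of a function on finite sequences form a club. -/
theorem isClub_closure (h : List W1 → W1) :
    IsClub {δ : W1 | ∀ s : List W1, (∀ x ∈ s, x < δ) → h s < δ} := by
  constructor
  · intro d hd hne hdir a ha s hs
    have : ∃ e ∈ d, ∀ x ∈ s, x < e := by
      clear hd
      induction s with
      | nil => obtain ⟨e, he⟩ := hne; exact ⟨e, he, by simp⟩
      | cons y t ih =>
        obtain ⟨e, he, h1⟩ := ih (fun x hx => hs x (List.mem_cons_of_mem _ hx))
        have hy : y < a := hs y (by simp)
        obtain ⟨e', he', h2⟩ := (lt_isLUB_iff ha).1 hy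
        rcases le_total e e' with h3 | h3
        · refine ⟨e', he', ?_⟩
          intro x hx
          rcases List.mem_cons.1 hx with rfl | hx
          · exact h2
          · exact (h1 x hx).trans_le h3
        · refine ⟨e, he, ?_⟩
          intro x hx
          rcases List.mem_cons.1 hx with rfl | hx
          · exact h2.trans_le h3
          · exact h1 x hx
    obtain ⟨e, he, h1⟩ := this
    exact (hd he s h1).trans_le (ha.1 he)
  · intro a
    -- one step of closing off
    have step : ∀ b : W1, ∃ b' : W1, b < b' ∧ ∀ s : List W1, (∀ x ∈ s, x ≤ b) → h s < b' := by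
      intro b
      have hc : (Set.range (fun s : List (Iic b) => h (s.map Subtype.val))).Countable := by
        have : Countable (Iic b) := (countable_Iic_W1 b).to_subtype
        exact Set.countable_range _
      obtain ⟨b', hb'⟩ := exists_upper _ (hc.insert b)
      refine ⟨b', hb' b (by simp), fun s hs => ?_⟩
      apply hb'
      right
      refine ⟨s.attach.map (fun x => ⟨x.1, hs x.1 x.2⟩), ?_⟩
      simp [List.map_map, Function.comp_def]
    choose f hf1 hf2 using step
    let g : ℕ → W1 := fun n => f^[n] a
    have hg : ∀ n, g (n + 1) = f (g n) := fun n => Function.iterate_succ_apply' f n a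
    have hmono : StrictMono g := strictMono_nat_of_lt_succ (fun n => by rw [hg]; exact hf1 _)
    obtain ⟨b0, hb0⟩ := exists_upper (Set.range g) (Set.countable_range g)
    -- least upper bound
    obtain ⟨δ, hδ, hmin⟩ := (wellFounded_lt (α := W1)).has_min {δ | ∀ n, g n < δ}
      ⟨b0, fun n => hb0 _ ⟨n, rfl⟩⟩
    refine ⟨δ, ?_, (hδ 0).le⟩
    intro s hs
    have : ∃ n, ∀ x ∈ s, x ≤ g n := by
      induction s with
      | nil => exact ⟨0, by simp⟩
      | cons y t ih =>
        obtain ⟨n, hn⟩ := ih (fun x hx => hs x (List.mem_cons_of_mem _ hx))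
        have hy : ∃ m, y ≤ g m := by
          by_contra h3
          push Not at h3
          exact hmin y h3 (hs y (by simp))
        obtain ⟨m, hm⟩ := hy
        refine ⟨max n m, fun x hx => ?_⟩
        rcases List.mem_cons.1 hx with rfl | hx
        · exact hm.trans (hmono.monotone (le_max_right _ _))
        · exact (hn x hx).trans (hmono.monotone (le_max_left _ _))
    obtain ⟨n, hn⟩ := this
    have := hf2 (g n) s hn
    rw [← hg] at this
    exact this.trans (hδ _)

end Pool.Agent.H897R2.Blum
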