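import Pool.Agent.H897R2.BlumA

/-!
The ordered space attached to a set `S ⊆ ω₁`.
-/

set_option autoImplicit false

namespace Pool.Agent.H897R2.Blum

open Set Order

section Space

variable {W : Type} [LinearOrder W] [WellFoundedLT W]

set_option linter.unusedSectionVars false

/-- `l` is a limit point of the set coded by `x`. -/
def Lim (x : W → Bool) (l : W) : Prop :=
  (∃ v, v < l) ∧ ∀ v < l, ∃ u, v < u ∧ u < l ∧ x u = true

theorem Lim.congr {x y : W → Bool} {l : W} (h : ∀ v < l, x v = y v) (hx : Lim x l) : Lim y l := by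
  refine ⟨hx.1, fun v hv => ?_⟩
  obtain ⟨u, h1, h2, h3⟩ := hx.2 v hv
  exact ⟨u, h1, h2, by rw [← h u h2]; exact h3⟩

/-- `x` codes a subset of `S` which contains all its limit points in `S`, and which is bounded by
each of its limit points not in `S`. -/
structure Mem (S : Set W) (x : W → Bool) : Prop where
  sub : ∀ w, x w = true → w ∈ S
  lim : ∀ l, Lim x l → l ∈ S → x l = true
  stop : ∀ l, Lim x l → l ∉ S → ∀ w, l ≤ w → x w = false

/-- The points of the space. -/
def Sp (S : Set W) : Type := {x : Lex (W → Bool) // Mem S (ofLex x)}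

noncomputable instance (S : Set W) : LinearOrder (Sp S) :=
  inferInstanceAs (LinearOrder {x : Lex (W → Bool) // Mem S (ofLex x)})

/-- The characteristic function. -/
def Sp.c {S : Set W} (x : Sp S) : W → Bool := ofLex x.1

theorem Sp.mem {S : Set W} (x : Sp S) : Mem S x.c := x.2

/-- Constructor. -/
def Sp.mk {S : Set W} (x : W → Bool) (h : Mem S x) : Sp S := ⟨toLex x, h⟩

@[simp] theorem Sp.c_mk {S : Set W} (x : W → Bool) (h : Mem S x) : (Sp.mk x h).c = x := rfl

theorem Sp.ext {S : Set W} {x y : Sp S} (h : ∀ w, x.c w = y.c w) : x = y :=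
  Subtype.ext (funext h)

theorem Sp.lt_iff {S : Set W} {x y : Sp S} :
    x < y ↔ ∃ i, (∀ j < i, x.c j = y.c j) ∧ x.c i = false ∧ y.c i = true := by
  change (∃ i, (∀ j, j < i → x.c j = y.c j) ∧ x.c i < y.c i) ↔ _
  simp only [Bool.lt_iff]

/-- The forcing rule used to construct suprema. -/
theorem exists_sup (S : Set W) (A : Set (Sp S)) : ∃ s : Sp S, IsLUB A s := by
  classical
  let G : (W → Bool) → W → Bool := fun x w =>
    decide ((w ∈ S ∧ ¬ ∃ l ≤ w, Lim x l ∧ l ∉ S) ∧
      (Lim x w ∨ ∃ a ∈ A, (∀ v < w, a.c v = x v) ∧ a.c w = true))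
  have hG : ∀ x y w, (∀ v < w, x v = y v) → G x w = G y w := by
    intro x y w h
    have hl : ∀ l ≤ w, (Lim x l ↔ Lim y l) := by
      intro l hl
      constructor
      · exact Lim.congr fun v hv => h v (hv.trans_le hl)
      · exact Lim.congr fun v hv => (h v (hv.trans_le hl)).symm
    have e1 : (∃ l ≤ w, Lim x l ∧ l ∉ S) ↔ (∃ l ≤ w, Lim y l ∧ l ∉ S) := by
      constructor
      · rintro ⟨l, h1, h2, h3⟩
        exact ⟨l, h1, (hl l h1).1 h2, h3⟩
      · rintro ⟨l, h1, h2, h3⟩
        exact ⟨l, h1, (hl l h1).2 h2, h3⟩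
    have e2 : (∃ a ∈ A, (∀ v < w, a.c v = x v) ∧ a.c w = true) ↔
        (∃ a ∈ A, (∀ v < w, a.c v = y v) ∧ a.c w = true) := by
      constructor
      · rintro ⟨a, h1, h2, h3⟩
        exact ⟨a, h1, fun v hv => by rw [h2 v hv, h v hv], h3⟩
      · rintro ⟨a, h1, h2, h3⟩
        exact ⟨a, h1, fun v hv => by rw [h2 v hv, h v hv], h3⟩
    simp only [G]
    rw [decide_eq_decide, e1, e2, hl w le_rfl]
  obtain ⟨s, hs⟩ := exists_rec G hG
  have hs1 : ∀ w, s w = true ↔ ((w ∈ S ∧ ¬ ∃ l ≤ w, Lim s l ∧ l ∉ S) ∧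
      (Lim s w ∨ ∃ a ∈ A, (∀ v < w, a.c v = s v) ∧ a.c w = true)) := by
    intro w
    rw [hs w]
    simp only [G, decide_eq_true_eq]
  have hmem : Mem S s := by
    refine ⟨fun w hw => ((hs1 w).1 hw).1.1, ?_, ?_⟩
    · intro l hl hlS
      rw [hs1]
      refine ⟨⟨hlS, ?_⟩, Or.inl hl⟩
      rintro ⟨m, hm1, hm2, hm3⟩
      have hml : m < l := lt_of_le_of_ne hm1 (fun h => hm3 (h ▸ hlS))
      obtain ⟨u, hu1, hu2, hu3⟩ := hl.2 m hml
      exact ((hs1 u).1 hu3).1.2 ⟨m, hu1.le, hm2, hm3⟩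
    · intro l hl hlS w hw
      by_contra h
      have h' : s w = true := by simpa using h
      exact ((hs1 w).1 h').1.2 ⟨l, hw, hl, hlS⟩
  refine ⟨Sp.mk s hmem, ?_, ?_⟩
  · intro a ha
    by_contra h
    rw [not_le, Sp.lt_iff] at h
    obtain ⟨i, h1, h2, h3⟩ := h
    simp only [Sp.c_mk] at h1 h2
    have : s i = true := by
      rw [hs1]
      refine ⟨⟨a.mem.sub i h3, ?_⟩, Or.inr ⟨a, ha, fun v hv => (h1 v hv).symm, h3⟩⟩
      rintro ⟨l, hl1, hl2, hl3⟩
      have h4 := a.mem.stop l (hl2.congr fun v hv => h1 v (hv.trans_le hl1)) hl3 i hl1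
      rw [h4] at h3
      exact Bool.false_ne_true h3
    rw [this] at h2
    exact Bool.false_ne_true h2.symm
  · intro u hu
    by_contra h
    rw [not_le, Sp.lt_iff] at h
    obtain ⟨i, h1, h2, h3⟩ := h
    simp only [Sp.c_mk] at h1 h3
    obtain ⟨⟨h4, h5⟩, h6 | ⟨a, ha, h7, h8⟩⟩ := (hs1 i).1 h3
    · have := u.mem.lim i (h6.congr fun v hv => (h1 v hv).symm) h4
      rw [this] at h2
      exact Bool.false_ne_true h2.symm
    · have : u < a := by
        rw [Sp.lt_iff]
        exact ⟨i, fun j hj => by rw [h1 j hj, h7 j hj], h2, h8⟩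
      exact absurd (hu ha) (not_le.2 this)

theorem exists_inf (S : Set W) (A : Set (Sp S)) : ∃ s : Sp S, IsGLB A s := by
  obtain ⟨s, hs⟩ := exists_sup S (lowerBounds A)
  exact ⟨s, isLUB_lowerBounds.1 hs⟩

end Space

/-- A bounded linear order in which all suprema and infima exist is a complete lattice. -/
@[instance_reducible]
noncomputable def mkCL (X : Type) [LinearOrder X] [BoundedOrder X]
    (h1 : ∀ A : Set X, ∃ s, IsLUB A s) (h2 : ∀ A : Set X, ∃ s, IsGLB A s) : CompleteLattice X where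
  __ := (inferInstance : Lattice X)
  __ := (inferInstance : BoundedOrder X)
  sSup := fun A => (h1 A).choose
  sInf := fun A => (h2 A).choose
  isLUB_sSup := fun A => (h1 A).choose_spec
  isGLB_sInf := fun A => (h2 A).choose_spec

/-- A bounded linear order in which all suprema and infima exist is a complete linear order. -/
@[instance_reducible]
noncomputable def mkCLO (X : Type) [LinearOrder X] [BoundedOrder X]
    (h1 : ∀ A : Set X, ∃ s, IsLUB A s) (h2 : ∀ A : Set X, ∃ s, IsGLB A s) :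
    CompleteLinearOrder X :=
  { mkCL X h1 h2, ‹LinearOrder X›, LinearOrder.toBiheytingAlgebra _ with }

theorem compactSpace_of_sup (X : Type) [LinearOrder X] [TopologicalSpace X] [OrderTopology X]
    (h1 : ∀ A : Set X, ∃ s, IsLUB A s) : CompactSpace X := by
  have h2 : ∀ A : Set X, ∃ s, IsGLB A s := by
    intro A
    obtain ⟨s, hs⟩ := h1 (lowerBounds A)
    exact ⟨s, isLUB_lowerBounds.1 hs⟩
  obtain ⟨b, hb⟩ := h1 ∅
  obtain ⟨t, ht⟩ := h1 univ
  let j : BoundedOrder X :=
    { top := t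
      bot := b
      le_top := fun x => ht.1 (mem_univ x)
      bot_le := fun x => hb.2 (by simp [upperBounds]) }
  let i := mkCLO X h1 h2
  exact @compactSpace_of_completeLinearOrder X i _ ‹OrderTopology X›

end Pool.Agent.H897R2.Blum
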