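import Pool.Agent.H897R2.BlumB

/-!
Nodes, cones, the distributivity argument and the final theorem.
-/

set_option autoImplicit false
set_option linter.unusedSectionVars false

namespace Pool.Agent.H897R2.Blum

open Set Order Topology

/-- The order topology. -/
noncomputable instance (S : Set W1) : TopologicalSpace (Sp S) := Preorder.topology _

instance (S : Set W1) : OrderTopology (Sp S) := ⟨rfl⟩

/-- All points which agree with `x` up to `γ`. -/
def cone {S : Set W1} (x : Sp S) (γ : W1) : Set (Sp S) := {y | ∀ w ≤ γ, y.c w = x.c w}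

theorem mem_cone_self {S : Set W1} (x : Sp S) (γ : W1) : x ∈ cone x γ := fun _ _ => rfl

theorem cone_mono {S : Set W1} {x y : Sp S} {γ δ : W1} (h : γ ≤ δ) (hy : y ∈ cone x γ) :
    cone y δ ⊆ cone x γ := by
  intro z hz w hw
  rw [hz w (hw.trans h), hy w hw]

theorem isClub_lim (x : W1 → Bool) (hx : ∀ a, ∃ w, a < w ∧ x w = true) :
    IsClub {l | Lim x l} := by
  constructor
  · intro d hd hne _ a ha
    refine ⟨?_, ?_⟩
    · obtain ⟨e, he⟩ := hne
      obtain ⟨v, hv⟩ := (hd he).1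
      exact ⟨v, hv.trans_le (ha.1 he)⟩
    · intro v hv
      obtain ⟨e, he, hve⟩ := (lt_isLUB_iff ha).1 hv
      obtain ⟨u, h1, h2, h3⟩ := (hd he).2 v hve
      exact ⟨u, h1, h2.trans_le (ha.1 he), h3⟩
  · intro a
    choose f hf1 hf2 using hx
    let g : ℕ → W1 := fun n => f^[n] a
    have hg : ∀ n, g (n + 1) = f (g n) := fun n => Function.iterate_succ_apply' f n a
    have hlt : ∀ n, g n < g (n + 1) := fun n => by rw [hg]; exact hf1 _
    obtain ⟨b0, hb0⟩ := exists_upper (Set.range g) (Set.countable_range g)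
    obtain ⟨δ, hδ, hmin⟩ := (wellFounded_lt (α := W1)).has_min {δ | ∀ n, g n < δ}
      ⟨b0, fun n => hb0 _ ⟨n, rfl⟩⟩
    refine ⟨δ, ⟨⟨_, hδ 0⟩, ?_⟩, (hδ 0).le⟩
    intro v hv
    have : ∃ n, v ≤ g n := by
      by_contra h
      push Not at h
      exact hmin v h hv
    obtain ⟨n, hn⟩ := this
    exact ⟨g (n + 1), hn.trans_lt (hlt n), hδ _, by rw [hg]; exact hf2 _⟩

theorem exists_bound {S : Set W1} (hS' : IsStationary Sᶜ) (x : Sp S) :
    ∃ α, ∀ w, x.c w = true → w ≤ α := by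
  by_contra h
  push Not at h
  have h' : ∀ a, ∃ w, a < w ∧ x.c w = true := by
    intro a
    obtain ⟨w, h1, h2⟩ := h a
    exact ⟨w, h2, h1⟩
  obtain ⟨l, hl1, hl2⟩ := hS' (isClub_lim x.c h')
  obtain ⟨w, hw1, hw2⟩ := h' l
  have := x.mem.stop l hl2 hl1 w hw1.le
  rw [this] at hw2
  exact Bool.false_ne_true hw2

theorem exists_mem_gt {S : Set W1} (hS : IsStationary S) (a : W1) : ∃ δ ∈ S, a < δ := by
  have hC : IsClub {w : W1 | a < w} := by
    constructor
    · intro d hd hne _ b hb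
      obtain ⟨e, he⟩ := hne
      exact lt_of_lt_of_le (hd he) (hb.1 he)
    · intro b
      obtain ⟨c, hc1, hc2⟩ := exists_gt2_W1 a b
      exact ⟨c, hc1, hc2.le⟩
  obtain ⟨δ, h1, h2⟩ := hS hC
  exact ⟨δ, h1, h2⟩

/-- Cut off above `γ` and add the point `δ`. -/
noncomputable def addPt (x : W1 → Bool) (γ δ : W1) : W1 → Bool := fun w => if w ≤ γ then x w else decide (w = δ)

theorem addPt_le {x : W1 → Bool} {γ δ w : W1} (h : w ≤ γ) : addPt x γ δ w = x w := by
  simp [addPt, h]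

theorem addPt_gt {x : W1 → Bool} {γ δ w : W1} (h : γ < w) :
    addPt x γ δ w = decide (w = δ) := by
  simp [addPt, not_le.2 h]

theorem lim_addPt_le {x : W1 → Bool} {γ δ l : W1} (h : Lim (addPt x γ δ) l) (hl : l ≤ γ) :
    Lim x l := h.congr fun _ hv => addPt_le (hv.le.trans hl)

theorem not_lim_addPt {x : W1 → Bool} {γ δ l : W1} (hl : γ < l) : ¬ Lim (addPt x γ δ) l := by
  intro h
  by_cases h1 : δ < l
  · obtain ⟨u, h2, h3, h4⟩ := h.2 (max γ δ) (max_lt hl h1)
    rw [addPt_gt ((le_max_left _ _).trans_lt h2)] at h4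
    have h5 : u = δ := by simpa using h4
    exact absurd h2 (not_lt.2 (h5 ▸ le_max_right _ _))
  · obtain ⟨u, h2, h3, h4⟩ := h.2 γ hl
    rw [addPt_gt h2] at h4
    have h5 : u = δ := by simpa using h4
    exact h1 (h5 ▸ h3)

theorem addPt_mem {S : Set W1} (x : Sp S) {γ δ : W1} (hδ : δ ∈ S)
    (hok : ∀ l ≤ γ, Lim x.c l → l ∈ S) : Mem S (addPt x.c γ δ) := by
  refine ⟨?_, ?_, ?_⟩
  · intro w hw
    rcases le_or_gt w γ with h | h
    · rw [addPt_le h] at hw
      exact x.mem.sub w hw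
    · rw [addPt_gt h] at hw
      have h5 : w = δ := by simpa using hw
      rw [h5]; exact hδ
  · intro l hl hlS
    rcases le_or_gt l γ with h | h
    · rw [addPt_le h]
      exact x.mem.lim l (lim_addPt_le hl h) hlS
    · exact absurd hl (not_lim_addPt h)
  · intro l hl hlS
    rcases le_or_gt l γ with h | h
    · exact absurd (hok l h (lim_addPt_le hl h)) hlS
    · exact absurd hl (not_lim_addPt h)

theorem ok_of_true {S : Set W1} (x : Sp S) {γ : W1} (h : x.c γ = true) :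
    ∀ l ≤ γ, Lim x.c l → l ∈ S := by
  intro l hl h1
  by_contra h2
  have := x.mem.stop l h1 h2 γ hl
  rw [h] at this
  exact Bool.false_ne_true this.symm

theorem node_ext {S : Set W1} (hS : IsStationary S) (x : Sp S) (γ ξ : W1)
    (hok : ∀ l ≤ γ, Lim x.c l → l ∈ S) :
    ∃ (y : Sp S) (δ : W1), y ∈ cone x γ ∧ ξ < δ ∧ γ < δ ∧ y.c δ = true := by
  obtain ⟨b, hb1, hb2⟩ := exists_gt2_W1 γ ξ
  obtain ⟨δ, hδ, hbδ⟩ := exists_mem_gt hS b
  refine ⟨Sp.mk (addPt x.c γ δ) (addPt_mem x hδ hok), δ, ?_, hb2.trans hbδ, hb1.trans hbδ, ?_⟩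
  · intro w hw
    exact addPt_le hw
  · change addPt x.c γ δ δ = true
    rw [addPt_gt (hb1.trans hbδ)]
    simp

theorem nhds_cone {S : Set W1} (c : Sp S) (U : Set (Sp S)) (hU : U ∈ 𝓝 c) :
    ∃ w, cone c w ⊆ U := by
  let F : Filter (Sp S) :=
    { sets := {U | ∃ w, cone c w ⊆ U}
      univ_sets := ⟨Classical.arbitrary W1, subset_univ _⟩
      sets_of_superset := by
        rintro U V ⟨w, hw⟩ hUV
        exact ⟨w, hw.trans hUV⟩
      inter_sets := by
        rintro U V ⟨w, hw⟩ ⟨v, hv⟩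
        exact ⟨max w v, subset_inter ((cone_mono (le_max_left _ _) (mem_cone_self c _)).trans hw)
          ((cone_mono (le_max_right _ _) (mem_cone_self c _)).trans hv)⟩ }
  have hF : F ≤ 𝓝 c := by
    rw [nhds_eq_order]
    refine le_inf (le_iInf₂ fun b hb => ?_) (le_iInf₂ fun b hb => ?_)
    · rw [Filter.le_principal_iff]
      obtain ⟨i, h1, h2, h3⟩ := Sp.lt_iff.1 (show b < c from hb)
      refine ⟨i, fun y hy => ?_⟩
      change b < y
      rw [Sp.lt_iff]
      exact ⟨i, fun j hj => by rw [h1 j hj, hy j hj.le], h2, by rw [hy i le_rfl]; exact h3⟩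
    · rw [Filter.le_principal_iff]
      obtain ⟨i, h1, h2, h3⟩ := Sp.lt_iff.1 (show c < b from hb)
      refine ⟨i, fun y hy => ?_⟩
      change y < b
      rw [Sp.lt_iff]
      exact ⟨i, fun j hj => by rw [← h1 j hj, hy j hj.le], by rw [hy i le_rfl]; exact h2, h3⟩
  exact hF hU

/-- The cut of `x` above `γ`. -/
noncomputable def cut (x : W1 → Bool) (γ : W1) : W1 → Bool := fun w => if w ≤ γ then x w else false

theorem cut_mem {S : Set W1} (x : Sp S) {γ : W1} (hγ : x.c γ = true) : Mem S (cut x.c γ) := by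
  have h0 : ∀ l, Lim (cut x.c γ) l → l ≤ γ ∧ Lim x.c l := by
    intro l hl
    have h1 : l ≤ γ := by
      by_contra h
      rw [not_le] at h
      obtain ⟨u, h2, h3, h4⟩ := hl.2 γ h
      simp [cut, not_le.2 h2] at h4
    refine ⟨h1, hl.congr fun v hv => ?_⟩
    simp [cut, hv.le.trans h1]
  refine ⟨?_, ?_, ?_⟩
  · intro w hw
    by_cases h : w ≤ γ
    · exact x.mem.sub w (by simpa [cut, h] using hw)
    · simp [cut, h] at hw
  · intro l hl hlS
    obtain ⟨h1, h2⟩ := h0 l hl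
    simp only [cut, h1, if_true]
    exact x.mem.lim l h2 hlS
  · intro l hl hlS
    obtain ⟨h1, h2⟩ := h0 l hl
    exact absurd (ok_of_true x hγ l h1 h2) hlS

/-- The point coding the empty set. -/
noncomputable def emp (S : Set W1) : Sp S := Sp.mk (fun _ => false)
  ⟨fun w hw => by simp at hw, fun l hl _ => by
    obtain ⟨v, hv⟩ := hl.1
    obtain ⟨u, -, -, h⟩ := hl.2 v hv
    simp at h, fun _ _ _ _ _ => rfl⟩

theorem node_dense {S : Set W1} (hS : IsStationary S) (U : Set (Sp S)) (hU : IsOpen U)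
    (hne : U.Nonempty) : ∃ (y : Sp S) (δ : W1), y.c δ = true ∧ cone y δ ⊆ U := by
  obtain ⟨c, hc⟩ := hne
  have step1 : ∃ c' ∈ U, ∃ γ, (∀ w, γ < w → c'.c w = false) ∧
      ∀ l ≤ γ, Lim c'.c l → l ∈ S := by
    by_cases hbot : ∀ w, c.c w = false
    · refine ⟨c, hc, Classical.arbitrary W1, fun w _ => hbot w, ?_⟩
      intro l _ hl
      obtain ⟨v, hv⟩ := hl.1
      obtain ⟨u, -, -, h⟩ := hl.2 v hv
      rw [hbot u] at h
      exact absurd h Bool.false_ne_true
    · have hlt : emp S < c := by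
        rw [Sp.lt_iff]
        push Not at hbot
        obtain ⟨i, hi, hmin⟩ := (wellFounded_lt (α := W1)).has_min {w | c.c w ≠ false} hbot
        refine ⟨i, fun j hj => ?_, rfl, by simpa using hi⟩
        have h1 : ¬ c.c j ≠ false := fun h => hmin j h hj
        push Not at h1
        rw [h1]
        rfl
      obtain ⟨a, ha, hIoc⟩ := exists_Ioc_subset_of_mem_nhds (hU.mem_nhds hc) ⟨_, hlt⟩
      obtain ⟨i, h1, h2, h3⟩ := Sp.lt_iff.1 ha
      let c' : Sp S := Sp.mk (cut c.c i) (cut_mem c h3)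
      have hc' : ∀ w, c'.c w = if w ≤ i then c.c w else false := fun w => rfl
      refine ⟨c', hIoc ⟨?_, ?_⟩, i, ?_, ?_⟩
      · rw [Sp.lt_iff]
        refine ⟨i, fun j hj => ?_, h2, ?_⟩
        · rw [h1 j hj, hc', if_pos hj.le]
        · rw [hc', if_pos le_rfl]; exact h3
      · by_contra h
        rw [not_le, Sp.lt_iff] at h
        obtain ⟨j, _, h5, h6⟩ := h
        rw [hc'] at h6
        by_cases h7 : j ≤ i
        · rw [if_pos h7, h5] at h6
          exact Bool.false_ne_true h6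
        · rw [if_neg h7] at h6
          exact Bool.false_ne_true h6
      · intro w hw
        rw [hc', if_neg (not_le.2 hw)]
      · apply ok_of_true
        rw [hc', if_pos le_rfl]; exact h3
  obtain ⟨c', hc', γ, h1, h2⟩ := step1
  obtain ⟨w, hw⟩ := nhds_cone c' U (hU.mem_nhds hc')
  have hok : ∀ l ≤ max w γ, Lim c'.c l → l ∈ S := by
    intro l hl h
    by_cases h3 : l ≤ γ
    · exact h2 l h3 h
    · obtain ⟨u, h4, h5, h6⟩ := h.2 γ (not_le.1 h3)
      rw [h1 u h4] at h6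
      exact absurd h6 Bool.false_ne_true
  obtain ⟨y, δ, hy, -, hδ, hyδ⟩ := node_ext hS c' (max w γ) (max w γ) hok
  refine ⟨y, δ, hyδ, ?_⟩
  exact (cone_mono hδ.le hy).trans ((cone_mono (le_max_left _ _) (mem_cone_self c' _)).trans hw)

theorem cone_interior {S : Set W1} (hS : IsStationary S) (y : Sp S) (γ : W1)
    (hγ : y.c γ = true) : (interior (cone y γ)).Nonempty := by
  have hok := ok_of_true y hγ
  obtain ⟨δ1, hδ1, h1⟩ := exists_mem_gt hS γ
  obtain ⟨δ2, hδ2, h2⟩ := exists_mem_gt hS δ1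
  obtain ⟨δ3, hδ3, h3⟩ := exists_mem_gt hS δ2
  let p : {δ : W1 // δ ∈ S} → Sp S := fun δ => Sp.mk (addPt y.c γ δ.1) (addPt_mem y δ.2 hok)
  have hp : ∀ δ w, (p δ).c w = addPt y.c γ δ.1 w := fun _ _ => rfl
  have hlt : ∀ δ δ' : {δ : W1 // δ ∈ S}, γ < δ.1 → δ.1 < δ'.1 → p δ' < p δ := by
    intro δ δ' hγδ hδ
    rw [Sp.lt_iff]
    refine ⟨δ.1, fun j hj => ?_, ?_, ?_⟩
    · rw [hp, hp]
      by_cases hj' : j ≤ γ
      · rw [addPt_le hj', addPt_le hj']
      · rw [addPt_gt (not_le.1 hj'), addPt_gt (not_le.1 hj')]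
        simp [hj.ne, (hj.trans hδ).ne]
    · rw [hp, addPt_gt hγδ]
      simp [hδ.ne]
    · rw [hp, addPt_gt hγδ]
      simp
  have hsub : Ioo (p ⟨δ3, hδ3⟩) (p ⟨δ1, hδ1⟩) ⊆ cone y γ := by
    rintro z ⟨hz1, hz2⟩
    obtain ⟨i, a1, a2, a3⟩ := Sp.lt_iff.1 hz1
    obtain ⟨k, b1, b2, b3⟩ := Sp.lt_iff.1 hz2
    have hi : γ < i := by
      by_contra h
      rw [not_lt] at h
      rw [hp, addPt_le h] at a2
      rcases lt_trichotomy k i with hk | hk | hk
      · have h4 := a1 k hk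
        rw [hp, addPt_le (hk.le.trans h)] at h4
        rw [hp, addPt_le (hk.le.trans h), h4, b2] at b3
        exact Bool.false_ne_true b3
      · rw [hk, a3] at b2
        exact Bool.false_ne_true b2.symm
      · have h4 := b1 i hk
        rw [hp, addPt_le h, a2, a3] at h4
        exact Bool.false_ne_true h4.symm
    intro w hw
    rw [← a1 w (hw.trans_lt hi), hp, addPt_le hw]
  refine ⟨p ⟨δ2, hδ2⟩, ?_⟩
  rw [mem_interior]
  exact ⟨_, hsub, isOpen_Ioo, hlt ⟨δ2, hδ2⟩ ⟨δ3, hδ3⟩ (h1.trans h2) h3,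
    hlt ⟨δ1, hδ1⟩ ⟨δ2, hδ2⟩ h1 h2⟩

/-- Nodes. -/
abbrev Node (S : Set W1) : Type := {p : Sp S × W1 // p.1.c p.2 = true}

theorem distributive {S : Set W1} (hS : IsStationary S) (p0 : Node S)
    (P : ℕ → Set (Sp S) → Prop)
    (hmono : ∀ n A B, A ⊆ B → P n B → P n A)
    (hP : ∀ (n : ℕ) (p : Node S) (ξ : W1), ∃ q : Node S, q.1.1 ∈ cone p.1.1 p.1.2 ∧
      ξ < q.1.2 ∧ p.1.2 < q.1.2 ∧ P n (cone q.1.1 q.1.2)) :
    ∃ q : Node S, ∀ n, P n (cone q.1.1 q.1.2) := by
  classical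
  choose nxt hn1 hn2 hn3 hn4 using hP
  let t : List W1 → Node S := fun s => s.rec p0 (fun ξ s ih => nxt s.length ih ξ)
  have ht : ∀ ξ s, t (ξ :: s) = nxt s.length (t s) ξ := fun _ _ => rfl
  obtain ⟨δ, hδS, hδC⟩ := hS (isClub_closure (fun s => (t s).1.2))
  have h0 : (t []).1.2 < δ := hδC [] (by simp)
  obtain ⟨e, he⟩ := (countable_Iio_W1 δ).exists_eq_range ⟨_, h0⟩
  have he1 : ∀ n, e n < δ := fun n => by
    have : e n ∈ Iio δ := by rw [he]; exact ⟨n, rfl⟩
    exact this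
  let s : ℕ → List W1 := fun n => n.rec [] (fun k ih => e k :: ih)
  have hs : ∀ n, s (n + 1) = e n :: s n := fun _ => rfl
  have hs1 : ∀ n, ∀ x ∈ s n, x < δ := by
    intro n
    induction n with
    | zero => intro x hx; exact absurd hx (by simp [s])
    | succ k ih =>
      intro x hx
      rw [hs] at hx
      rcases List.mem_cons.1 hx with rfl | hx
      · exact he1 k
      · exact ih x hx
  have hs2 : ∀ n, (s n).length = n := by
    intro n
    induction n with
    | zero => rfl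
    | succ k ih => rw [hs, List.length_cons, ih]
  -- the sequence of nodes
  let x : ℕ → Sp S := fun n => (t (s n)).1.1
  let γ : ℕ → W1 := fun n => (t (s n)).1.2
  have hx1 : ∀ n, (x n).c (γ n) = true := fun n => (t (s n)).2
  have hγδ : ∀ n, γ n < δ := fun n => hδC (s n) (hs1 n)
  have hxs : ∀ n, x (n + 1) ∈ cone (x n) (γ n) := fun n => hn1 _ _ _
  have hγs : ∀ n, γ n < γ (n + 1) := fun n => hn3 _ _ _
  have hγe : ∀ n, e n < γ (n + 1) := fun n => hn2 _ _ _
  have hPs : ∀ n, P n (cone (x (n + 1)) (γ (n + 1))) := by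
    intro n
    have := hn4 (s n).length (t (s n)) (e n)
    rw [hs2 n] at this
    have h5 : t (s (n + 1)) = nxt n (t (s n)) (e n) := by
      rw [hs, ht, hs2]
    change P n (cone (t (s (n + 1))).1.1 (t (s (n + 1))).1.2)
    rw [h5]
    exact this
  have hγmono : StrictMono γ := strictMono_nat_of_lt_succ hγs
  have hcoh : ∀ n m, n ≤ m → x m ∈ cone (x n) (γ n) := by
    intro n m hnm
    induction m, hnm using Nat.le_induction with
    | base => exact mem_cone_self _ _
    | succ k hk ih =>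
      exact cone_mono (hγmono.monotone hk) ih (hxs k)
  have hex : ∀ w, w < δ → ∃ n, w ≤ γ n := by
    intro w hw
    have : w ∈ Set.range e := by rw [← he]; exact hw
    obtain ⟨n, rfl⟩ := this
    exact ⟨n + 1, (hγe n).le⟩
  let y : W1 → Bool := fun w => if h : ∃ n, w ≤ γ n then (x (Nat.find h)).c w else decide (w = δ)
  have hy1 : ∀ n w, w ≤ γ n → y w = (x n).c w := by
    intro n w hw
    have h : ∃ n, w ≤ γ n := ⟨n, hw⟩
    simp only [y, dif_pos h]
    exact (hcoh _ n (Nat.find_min' h hw) w (Nat.find_spec h)).symm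
  have hy2 : ∀ w, δ ≤ w → y w = decide (w = δ) := by
    intro w hw
    have h : ¬ ∃ n, w ≤ γ n := by
      rintro ⟨n, hn⟩
      exact absurd (hw.trans hn) (not_le.2 (hγδ n))
    simp only [y, dif_neg h]
  have hlim : ∀ l, Lim y l → l ≤ δ := by
    intro l hl
    by_contra h
    rw [not_le] at h
    obtain ⟨u, h1, h2, h3⟩ := hl.2 δ h
    rw [hy2 u h1.le] at h3
    have : u = δ := by simpa using h3
    exact h1.ne' this
  have hymem : Mem S y := by
    refine ⟨?_, ?_, ?_⟩
    · intro w hw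
      rcases lt_or_ge w δ with h | h
      · obtain ⟨n, hn⟩ := hex w h
        rw [hy1 n w hn] at hw
        exact (x n).mem.sub w hw
      · rw [hy2 w h] at hw
        have : w = δ := by simpa using hw
        rw [this]; exact hδS
    · intro l hl hlS
      rcases (hlim l hl).lt_or_eq with h | h
      · obtain ⟨n, hn⟩ := hex l h
        rw [hy1 n l hn]
        exact (x n).mem.lim l (hl.congr fun v hv => hy1 n v (hv.le.trans hn)) hlS
      · rw [hy2 l h.ge]; simp [h]
    · intro l hl hlS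
      rcases (hlim l hl).lt_or_eq with h | h
      · obtain ⟨n, hn⟩ := hex l h
        exact absurd (ok_of_true (x n) (hx1 n) l hn
          (hl.congr fun v hv => hy1 n v (hv.le.trans hn))) hlS
      · exact absurd (h ▸ hδS) hlS
  have hyδ : y δ = true := by rw [hy2 δ le_rfl]; simp
  refine ⟨⟨(Sp.mk y hymem, δ), hyδ⟩, fun n => ?_⟩
  refine hmono n _ _ ?_ (hPs n)
  refine cone_mono (hγδ (n + 1)).le ?_
  intro w hw
  exact hy1 (n + 1) w hw

theorem no_blumberg {S : Set W1} (hS : IsStationary S) (hS' : IsStationary Sᶜ) :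
    ∃ f : Sp S → ℝ, ∀ D : Set (Sp S), Dense D → ¬ ContinuousOn f D := by
  classical
  obtain ⟨g⟩ : Nonempty (W1 ↪ ℝ) := by
    rw [← Cardinal.le_def]
    simp only [Cardinal.mk_ord_toType, Cardinal.mk_real]
    exact Cardinal.aleph_one_le_continuum
  choose rk hrk using exists_bound hS'
  refine ⟨fun x => g (rk x), fun D hD hf => ?_⟩
  obtain ⟨q, hq⟩ := exists_surjective_nat ℚ
  -- an initial node
  obtain ⟨y0, δ0, hy0, -⟩ := node_dense hS univ isOpen_univ ⟨emp S, trivial⟩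
  let P : ℕ → Set (Sp S) → Prop := fun n A =>
    (∀ d ∈ D ∩ A, g (rk d) < q n) ∨ (∀ d ∈ D ∩ A, (q n : ℝ) ≤ g (rk d))
  have hmono : ∀ n A B, A ⊆ B → P n B → P n A := by
    rintro n A B hAB (h | h)
    · exact Or.inl fun d hd => h d ⟨hd.1, hAB hd.2⟩
    · exact Or.inr fun d hd => h d ⟨hd.1, hAB hd.2⟩
  have key : ∀ (n : ℕ) (p : Node S) (ξ : W1), ∃ r : Node S, r.1.1 ∈ cone p.1.1 p.1.2 ∧
      ξ < r.1.2 ∧ p.1.2 < r.1.2 ∧ P n (cone r.1.1 r.1.2) := by
    rintro n ⟨⟨x, γ⟩, hx⟩ ξ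
    have main : ∃ U : Set (Sp S), IsOpen U ∧ U.Nonempty ∧ U ⊆ cone x γ ∧ P n U := by
      by_cases h : ∃ d ∈ D ∩ interior (cone x γ), g (rk d) < q n
      · obtain ⟨d, ⟨hdD, hdI⟩, hd⟩ := h
        have h1 := (hf d hdD).eventually (Iio_mem_nhds hd)
        rw [eventually_nhdsWithin_iff] at h1
        obtain ⟨V, hV, hVo, hdV⟩ := mem_nhds_iff.1 h1
        refine ⟨V ∩ interior (cone x γ), hVo.inter isOpen_interior, ⟨d, hdV, hdI⟩,
          inter_subset_right.trans interior_subset, Or.inl ?_⟩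
        rintro e ⟨heD, heV, -⟩
        exact hV heV heD
      · refine ⟨interior (cone x γ), isOpen_interior, cone_interior hS x γ hx,
          interior_subset, Or.inr ?_⟩
        intro d hd
        by_contra h2
        exact h ⟨d, hd, not_le.1 h2⟩
    obtain ⟨U, hUo, hUne, hUc, hPU⟩ := main
    obtain ⟨y, δ, hyδ, hyU⟩ := node_dense hS U hUo hUne
    obtain ⟨z, ε, hz, h1, h2, h3⟩ := node_ext hS y δ (max γ ξ) (ok_of_true y hyδ)
    have hzU : cone z ε ⊆ U := (cone_mono h2.le hz).trans hyU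
    exact ⟨⟨(z, ε), h3⟩, hUc (hzU (mem_cone_self z ε)), (le_max_right _ _).trans_lt h1,
      (le_max_left _ _).trans_lt h1, hmono n _ _ hzU hPU⟩
  obtain ⟨⟨⟨y, δ⟩, hyδ⟩, hr⟩ := distributive hS ⟨(y0, δ0), hy0⟩ P hmono key
  have hconst : ∀ d ∈ D ∩ cone y δ, ∀ e ∈ D ∩ cone y δ, g (rk d) ≤ g (rk e) := by
    intro d hd e he
    by_contra h
    rw [not_le] at h
    obtain ⟨r, hr1, hr2⟩ := exists_rat_btwn h
    obtain ⟨n, rfl⟩ := hq r
    rcases hr n with h1 | h1
    · exact absurd (h1 d hd) (not_lt.2 hr2.le)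
    · exact absurd (h1 e he) (not_le.2 hr1)
  obtain ⟨d, hd1, hd2⟩ := hD.inter_open_nonempty _ isOpen_interior (cone_interior hS y δ hyδ)
  obtain ⟨z, ε, hz, h1, h2, h3⟩ := node_ext hS y δ (rk d) (ok_of_true y hyδ)
  obtain ⟨e, he1, he2⟩ := hD.inter_open_nonempty _ isOpen_interior (cone_interior hS z ε h3)
  have hd : d ∈ D ∩ cone y δ := ⟨hd2, interior_subset hd1⟩
  have he : e ∈ D ∩ cone y δ := ⟨he2, cone_mono h2.le hz (interior_subset he1)⟩
  have heq : rk d = rk e := g.injective (le_antisymm (hconst d hd e he) (hconst e he d hd))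
  have h4 : e.c ε = true := by
    rw [interior_subset he1 ε le_rfl]; exact h3
  have h5 := hrk e ε h4
  rw [← heq] at h5
  exact absurd h1 (not_lt.2 h5)

instance (S : Set W1) : CompactSpace (Sp S) := compactSpace_of_sup _ (exists_sup S)

/-- There is a compact linearly ordered space and a real function on it which is not continuous on
any dense set. -/
theorem exists_space : ∃ (X : Type) (_ : LinearOrder X) (_ : TopologicalSpace X),
    OrderTopology X ∧ CompactSpace X ∧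
      ∃ f : X → ℝ, ∀ D : Set X, Dense D → ¬ ContinuousOn f D := by
  obtain ⟨S, hS, hS'⟩ := exists_bistationary
  exact ⟨Sp S, inferInstance, inferInstance, inferInstance, inferInstance, no_blumberg hS hS'⟩

end Pool.Agent.H897R2.Blum
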